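import Pool.Agent.Q54.EM.StmD

set_option autoImplicit false

namespace Pool.Agent.Q119.EM.Flw

open Pool.Agent.Q54.EM Finset Filter Topology

section static

variable {ι : Type} [Fintype ι]

theorem o_static (hE : S_EEL) {p x : ι → ℝ} (h : Law p x) (k : ℕ) (hk : 1 ≤ k) :
    GP p x (k - 1) k - mu p x * PR p x (k - 1) k ≤ GP p x k k := by
  obtain ⟨n, rfl⟩ : ∃ n, k = n + 1 := ⟨k - 1, by omega⟩
  obtain ⟨_, e2, e3, e4, _, _⟩ := hE ι p x n
  have hp : ∀ i, 0 ≤ p i := fun i => (h.pos i).le
  show GP p x n ((n + 1 : ℕ) : ℝ) - mu p x * PR p x n ((n + 1 : ℕ) : ℝ) ≤ GP p x (n + 1) ((n + 1 : ℕ) : ℝ)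
  set y : ℝ := ((n + 1 : ℕ) : ℝ) with hy
  have key : ∀ i, GP p x n y - x i * PR p x n y ≤
      EE p x n (fun s => max (y - (s + x i)) 0) := by
    intro i
    have h1 : GP p x n y - x i * PR p x n y =
        EE p x n (fun s => max (y - s) 0 - x i * (if s < y then 1 else 0)) := by
      rw [e2, e3]; rfl
    rw [h1]
    refine e4 hp h.nn _ _ fun s _ => ?_
    by_cases hs : s < y
    · rw [if_pos hs, max_eq_left (by linarith)]
      refine le_trans ?_ (le_max_left _ _)
      linarith
    · rw [if_neg hs, max_eq_right (by linarith)]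
      refine le_trans ?_ (le_max_right _ _)
      linarith
  have h2 : GP p x (n + 1) y = ∑ i, p i * EE p x n (fun s => max (y - (s + x i)) 0) := rfl
  have h3 : GP p x n y - mu p x * PR p x n y = ∑ i, p i * (GP p x n y - x i * PR p x n y) := by
    have : ∑ i, p i * (GP p x n y - x i * PR p x n y) =
        (∑ i, p i) * GP p x n y - (∑ i, p i * x i) * PR p x n y := by
      rw [sum_mul, sum_mul, ← sum_sub_distrib]
      refine sum_congr rfl fun i _ => ?_
      ring
    rw [this, h.sum]
    unfold mu
    ring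
  rw [h2, h3]
  exact sum_le_sum fun i _ => mul_le_mul_of_nonneg_left (key i) (hp i)

theorem V_static (hE : S_EEL) {p x : ι → ℝ} (h : Law p x) (k : ℕ) (hP : 0 < PR p x k k) :
    0 ≤ VV k p x := by
  obtain ⟨e1, e2, e3, e4, e5, _⟩ := hE ι p x k
  have hp : ∀ i, 0 ≤ p i := fun i => (h.pos i).le
  set c := hh k p x with hc
  have hc' : c * PR p x k k = GP p x k k := by
    rw [hc]; unfold hh; field_simp
  have h0 : 0 ≤ G2 p x k k - 2 * c * GP p x k k + c ^ 2 * PR p x k k := by
    have h1 : G2 p x k k - 2 * c * GP p x k k + c ^ 2 * PR p x k k =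
        EE p x k (fun s => ((max ((k : ℝ) - s) 0) ^ 2 - 2 * c * max ((k : ℝ) - s) 0) +
          c ^ 2 * (if s < k then 1 else 0)) := by
      rw [e1, e2, e3, e3]; rfl
    rw [h1]
    have hz : EE p x k (fun _ => (0 : ℝ)) = 0 := by
      have := e5 h.sum 0
      exact this
    refine le_trans (le_of_eq hz.symm) ?_
    refine e4 hp h.nn _ _ fun s _ => ?_
    by_cases hs : s < k
    · rw [if_pos hs]
      nlinarith [sq_nonneg (max ((k : ℝ) - s) 0 - c)]
    · rw [if_neg hs, max_eq_right (by linarith)]
      simp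
  unfold VV
  rw [← hc, sub_nonneg, le_div_iff₀ hP]
  have h5 : c * GP p x k k = c ^ 2 * PR p x k k := by rw [← hc']; ring
  linarith

theorem r_static (hC : S_CND) (hE : S_EEL) {p x : ι → ℝ} (h : Law p x) (k : ℕ) (hk : 1 ≤ k) :
    ((k : ℝ) - ((k : ℝ) - 1) * mu p x) * PR p x (k - 1) k ≤ GP p x (k - 1) k := by
  obtain ⟨e1, e2, e3, e4, e5, _⟩ := hE ι p x (k - 1)
  have h1 := hC ι p x (k - 1) k h
  have h2 : GP p x (k - 1) k = k * PR p x (k - 1) k -
      EE p x (k - 1) (fun s => s * (if s < k then 1 else 0)) := by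
    have : GP p x (k - 1) k = EE p x (k - 1) (fun s => (k : ℝ) * (if s < k then 1 else 0) -
        s * (if s < k then 1 else 0)) := by
      unfold GP
      congr 1
      funext s
      by_cases hs : s < k
      · rw [if_pos hs, max_eq_left (by linarith)]; ring
      · rw [if_neg hs, max_eq_right (by linarith)]; ring
    rw [this, e2, e3]; rfl
  have h3 : ((k - 1 : ℕ) : ℝ) = (k : ℝ) - 1 := by
    rw [Nat.cast_sub hk]; simp
  rw [h3] at h1
  rw [h2]
  linarith

end static

section tilt

variable {ι : Type} [Fintype ι]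

/-- the normalisation -/
noncomputable def ZZ (p x : ι → ℝ) (t : ℝ) : ℝ := ∑ j, p j * Real.exp (-t * x j)

theorem ZZ_pos {p x : ι → ℝ} (h : Law p x) (t : ℝ) : 0 < ZZ p x t := by
  have : Nonempty ι := by
    by_contra hne
    rw [not_nonempty_iff] at hne
    have := h.sum
    simp at this
  refine sum_pos (fun i _ => ?_) univ_nonempty
  have := h.pos i
  positivity

/-- everything about the tilted laws -/
theorem pack (hTLT : S_TLT) {p x : ι → ℝ} {k : ℕ} (hk : 1 ≤ k) (h : Law p x) (hm : mu p x < 1) (t : ℝ) :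
    (0 < PR (pt p x t) x k k) ∧ (0 < PR (pt p x t) x (k - 1) k) ∧
    hh k (pt p x t) x = UU k p x k 1 t / UU k p x k 0 t ∧
    VV k (pt p x t) x = UU k p x k 2 t / UU k p x k 0 t - (UU k p x k 1 t / UU k p x k 0 t) ^ 2 ∧
    lam k (pt p x t) x = UU k p x k 0 t / (ZZ p x t * UU k p x (k - 1) 0 t) ∧
    GP (pt p x t) x (k - 1) k / PR (pt p x t) x (k - 1) k =
      UU k p x (k - 1) 1 t / UU k p x (k - 1) 0 t ∧
    Real.log (PR (pt p x t) x k k) = Real.log (UU k p x k 0 t) - t * k - k * Real.log (ZZ p x t) := by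
  obtain ⟨hL, hP, hG, hG2, hU, hD⟩ := hTLT ι p x k hk h hm t
  have hZ := ZZ_pos h t
  have hZk : 0 < ZZ p x t ^ k := by positivity
  have hZk1 : 0 < ZZ p x t ^ (k - 1) := by positivity
  have hE : 0 < Real.exp (-t * k) := Real.exp_pos _
  have hU0 := hU k le_rfl
  have hU1 := hU (k - 1) (Nat.sub_le _ _)
  have p1 := hP k
  have p2 := hP (k - 1)
  have g1 := hG k
  have g2 := hG (k - 1)
  have q1 := hG2 k
  change _ = _ / (ZZ p x t) ^ k at p1
  change _ = _ / (ZZ p x t) ^ (k - 1) at p2
  change _ = _ / (ZZ p x t) ^ k at g1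
  change _ = _ / (ZZ p x t) ^ (k - 1) at g2
  change _ = _ / (ZZ p x t) ^ k at q1
  have hpow : ZZ p x t ^ k = ZZ p x t ^ (k - 1) * ZZ p x t := by
    rw [← pow_succ, Nat.sub_add_cancel hk]
  refine ⟨?_, ?_, ?_, ?_, ?_, ?_, ?_⟩
  · rw [p1]; positivity
  · rw [p2]; positivity
  · unfold hh
    rw [p1, g1]
    field_simp
  · unfold VV hh
    rw [p1, g1, q1]
    field_simp
  · unfold lam
    rw [p1, p2, hpow]
    field_simp
  · rw [p2, g2]
    field_simp
  · rw [p1, Real.log_div (by positivity) (by positivity), Real.log_mul (by positivity) (by positivity),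
      Real.log_exp, Real.log_pow]
    ring

end tilt

theorem flw : S_TLT → S_TMO → S_K3B → S_TLI → S_TLQ → S_GEN → S_LH → S_CND → S_IDT → S_LMB →
    S_HL → S_POS → S_EEL → S_FLW := by
  intro hTLT hTMO hK3B hTLI hTLQ hGEN hLH hCND hIDT hLMB hHL hPOS hEEL
  intro ι _ p x k l hk2 h hmu0 hmu hKK hva
  have hk : 1 ≤ k := by omega
  have hkR : (0 : ℝ) < k := by exact_mod_cast (by omega : 0 < k)
  obtain ⟨hlam, hxl⟩ := hLMB ι p x k l hk h hmu hKK
  obtain ⟨hhl, hh0, hhk, _, het⟩ := hHL ι p x k l hk h hmu0 hmu hKK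
  have hidt := hIDT ι p x k l hk h hmu hKK
  have hl : 0 < l := hKK.1
  obtain ⟨hTm, hTv, hTz, hTmon, hpt0⟩ := hTMO ι p x h
  have hPk : 0 < PR p x k k := (hPOS ι p x h).1 k k le_rfl hk hmu
  have hPk1 : 0 < PR p x (k - 1) k := (hPOS ι p x h).1 (k - 1) k (Nat.sub_le _ _) hk hmu
  have hlam0 : 0 < lam k p x := div_pos hPk hPk1
  have hml : 0 < mu p x / l := div_pos hmu0 hl
  have hlam1 : lam k p x < 1 := by rw [hlam]; linarith
  have hPlt : PR p x k k < PR p x (k - 1) k := by
    unfold lam at hlam1
    rwa [div_lt_one hPk1] at hlam1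
  have hmul : mu p x < l := by
    have : mu p x / l < 1 := by rw [hlam] at hlam0; linarith
    rwa [div_lt_one hl] at this
  -- the functions
  have pk := fun t => pack hTLT hk h hmu t
  have hLaw : ∀ t, Law (pt p x t) x := fun t => (hTLT ι p x k hk h hmu t).1
  have hU0 : ∀ n t, n ≤ k → 0 < UU k p x n 0 t := fun n t hn =>
    (hTLT ι p x k hk h hmu t).2.2.2.2.1 n hn
  have hUd : ∀ n j t, HasDerivAt (UU k p x n j) (UU k p x n (j + 1) t) t := fun n j t =>
    (hTLT ι p x k hk h hmu t).2.2.2.2.2 n j
  have hGP : 0 < GP p x k k := by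
    have : hh k p x * PR p x k k = GP p x k k := by unfold hh; field_simp
    rw [← this]; positivity
  have hU1 : ∀ t, 0 < UU k p x k 1 t := by
    intro t
    obtain ⟨_, _, e3, e4, _, _⟩ := hEEL ι p x k
    have h1 : Real.exp (-|t| * k) * GP p x k k ≤ UU k p x k 1 t := by
      have : Real.exp (-|t| * k) * GP p x k k =
          EE p x k (fun s => Real.exp (-|t| * k) * max ((k : ℝ) - s) 0) := by
        rw [e3]; rfl
      rw [this]
      refine e4 (fun i => (h.pos i).le) h.nn _ _ fun s hs => ?_
      by_cases hsk : s < k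
      · rw [if_pos hsk, max_eq_left (by linarith)]
        have h3 : Real.exp (-|t| * k) ≤ Real.exp (t * (k - s)) := by
          rw [Real.exp_le_exp]
          have h4 : |t| * (k - s) ≤ |t| * k := by nlinarith [abs_nonneg t]
          have h5 : -(|t| * (k - s)) ≤ t * (k - s) := by
            have := neg_abs_le t
            nlinarith
          linarith
        have h4 : 0 < (k : ℝ) - s := by linarith
        nlinarith
      · rw [if_neg hsk, max_eq_right (by linarith)]
        simp
    exact lt_of_lt_of_le (by positivity) h1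
  set hf : ℝ → ℝ := fun t => hh k (pt p x t) x with hhf
  set lf : ℝ → ℝ := fun t => lam k (pt p x t) x with hlf
  set mf : ℝ → ℝ := fun t => mu (pt p x t) x with hmf
  set vf : ℝ → ℝ := fun t => va (pt p x t) x with hvf
  set cf : ℝ → ℝ := fun t => k3 (pt p x t) x with hcf
  set Vf : ℝ → ℝ := fun t => VV k (pt p x t) x with hVf
  set rf : ℝ → ℝ := fun t => GP (pt p x t) x (k - 1) k / PR (pt p x t) x (k - 1) k with hrf
  have hfe : hf = fun t => UU k p x k 1 t / UU k p x k 0 t := funext fun t => (pk t).2.2.1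
  have lfe : lf = fun t => UU k p x k 0 t / (ZZ p x t * UU k p x (k - 1) 0 t) :=
    funext fun t => (pk t).2.2.2.2.1
  have rfe : rf = fun t => UU k p x (k - 1) 1 t / UU k p x (k - 1) 0 t :=
    funext fun t => (pk t).2.2.2.2.2.1
  have Vfe : ∀ t, Vf t = UU k p x k 2 t / UU k p x k 0 t - (UU k p x k 1 t / UU k p x k 0 t) ^ 2 :=
    fun t => (pk t).2.2.2.1
  have hfpos : ∀ t, 0 < hf t := by
    intro t
    rw [hfe]
    exact div_pos (hU1 t) (hU0 k t le_rfl)
  have lfpos : ∀ t, 0 < lf t := by
    intro t
    show 0 < lam k (pt p x t) x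
    exact div_pos (pk t).1 (pk t).2.1
  -- derivatives
  have dh : ∀ t, HasDerivAt hf (Vf t) t := by
    intro t
    rw [hfe]
    have h0 := ne_of_gt (hU0 k t le_rfl)
    refine ((hUd k 1 t).div (hUd k 0 t) h0).congr_deriv ?_
    rw [Vfe]
    field_simp
  have dm : ∀ t, HasDerivAt mf (- vf t) t := fun t => hTm t
  have dv : ∀ t, HasDerivAt vf (- cf t) t := fun t => hTv t
  have dlz : ∀ t, HasDerivAt (fun s => Real.log (ZZ p x s)) (- mf t) t := fun t => hTz t
  have dZ : ∀ t, HasDerivAt (ZZ p x) (- mf t * ZZ p x t) t := by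
    intro t
    have h1 := (dlz t).exp
    have e : (fun s => Real.exp (Real.log (ZZ p x s))) = ZZ p x := by
      funext s; exact Real.exp_log (ZZ_pos h s)
    rw [e, Real.exp_log (ZZ_pos h t)] at h1
    refine h1.congr_deriv ?_
    ring
  have dl : ∀ t, HasDerivAt lf (lf t * (hf t + mf t - rf t)) t := by
    intro t
    have h0 := ne_of_gt (hU0 k t le_rfl)
    have h1 := ne_of_gt (hU0 (k - 1) t (Nat.sub_le _ _))
    have h2 := ne_of_gt (ZZ_pos h t)
    have e1 : hf t = UU k p x k 1 t / UU k p x k 0 t := congrFun hfe t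
    have e2 : rf t = UU k p x (k - 1) 1 t / UU k p x (k - 1) 0 t := congrFun rfe t
    have e3 : lf t = UU k p x k 0 t / (ZZ p x t * UU k p x (k - 1) 0 t) := congrFun lfe t
    have h3 := (hUd k 0 t).div ((dZ t).mul (hUd (k - 1) 0 t)) (mul_ne_zero h2 h1)
    rw [lfe]
    refine h3.congr_deriv ?_
    simp only [Pi.mul_apply]
    rw [e1, e2]
    field_simp
    ring
  have dr : ∀ t, DifferentiableAt ℝ rf t := by
    intro t
    rw [rfe]
    exact ((hUd (k - 1) 1 t).div (hUd (k - 1) 0 t)
      (ne_of_gt (hU0 (k - 1) t (Nat.sub_le _ _)))).differentiableAt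
  set yf : ℝ → ℝ := fun t => 1 - k * (1 - mf t) / hf t with hyf
  set of : ℝ → ℝ := fun t => (lf t * hf t - rf t + mf t) / hf t with hof
  have dy : ∀ t, HasDerivAt yf (- (k * vf t) / hf t + (1 - yf t) * Vf t / hf t) t := by
    intro t
    have hne := ne_of_gt (hfpos t)
    have h1 : HasDerivAt (fun t => (k : ℝ) * (1 - mf t)) (k * vf t) t := by
      have := ((dm t).const_sub 1).const_mul (k : ℝ)
      simpa using this
    refine ((h1.div (dh t) hne).const_sub 1).congr_deriv ?_
    simp only [hyf]
    field_simp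
    ring
  -- continuity of the integrand
  have chf : Continuous hf := continuous_iff_continuousAt.2 fun t => (dh t).continuousAt
  have cmf : Continuous mf := continuous_iff_continuousAt.2 fun t => (dm t).continuousAt
  have clf : Continuous lf := continuous_iff_continuousAt.2 fun t => (dl t).continuousAt
  have cyf : Continuous yf := continuous_iff_continuousAt.2 fun t => (dy t).continuousAt
  have crf : Continuous rf := continuous_iff_continuousAt.2 fun t => (dr t).continuousAt
  have cof : Continuous of := by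
    rw [hof]
    exact Continuous.div ((clf.mul chf).sub crf |>.add cmf) chf fun t => ne_of_gt (hfpos t)
  have cint : Continuous (fun s => hf s * (lf s * yf s * of s)) :=
    chf.mul ((clf.mul cyf).mul cof)
  -- static facts along the flow
  have hmle : ∀ t, 0 ≤ t → mf t ≤ mu p x := fun t ht => hTmon t ht
  have hmlt : ∀ t, 0 ≤ t → mf t < 1 := fun t ht => lt_of_le_of_lt (hmle t ht) hmu
  have hpt0' : pt p x 0 = p := hpt0
  have hf0 : hf 0 = hh k p x := by simp only [hhf, hpt0']
  have lf0 : lf 0 = lam k p x := by simp only [hlf, hpt0']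
  have mf0 : mf 0 = mu p x := by simp only [hmf, hpt0']
  have vf0 : vf 0 = va p x := by simp only [hvf, hpt0']
  have hq0 : 1 - lam k p x = mu p x / l := by rw [hlam]; ring
  have hvnn : ∀ t, 0 ≤ t → 0 ≤ vf t ∧ - (mf t * vf t) ≤ cf t ∧
      (l - mf t) * cf t ≤ (l - mf t) ^ 2 * vf t - vf t ^ 2 := by
    intro t _
    obtain ⟨a1, a2, a3⟩ := hK3B ι (pt p x t) x l (hLaw t) hxl
    exact ⟨a3, a1, a2⟩
  refine ⟨hf, yf, fun t => Vf t / hf t ^ 2, fun t => k * vf t / hf t ^ 2, lf, of,
    fun t => k * cf t / hf t ^ 3, fun t => l / hf t, fun t => - Real.log (PR (pt p x t) x k k),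
    fun t => Real.log (UU k p x k 0 t) - Real.log (UU k p x k 0 0),
    fun t => ∫ s in (0 : ℝ)..t, hf s * (lf s * yf s * of s), ?_, ?_, ?_⟩
  · constructor
    · exact hkR
    · rw [hq0]; exact hml
    · linarith
    · rw [sub_nonneg, le_div_iff₀ hh0]; linarith
    · exact hl
    · intro t _; exact hfpos t
    · intro t _
      have := ne_of_gt (hfpos t)
      field_simp
    · intro t _
      have h0 := ne_of_gt (hU0 k t le_rfl)
      refine (((hUd k 0 t).log h0).sub_const _).congr_deriv ?_
      rw [congrFun hfe t]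
    · simp
    · intro t _
      have h0 := ne_of_gt (hU0 k t le_rfl)
      have hne := ne_of_gt (hfpos t)
      have e : (fun t => - Real.log (PR (pt p x t) x k k)) =
          fun t => -(Real.log (UU k p x k 0 t) - t * k - k * Real.log (ZZ p x t)) := by
        funext t; rw [(pk t).2.2.2.2.2.2]
      rw [e]
      have h1 := ((((hUd k 0 t).log h0).sub ((hasDerivAt_id t).mul_const (k : ℝ))).sub
        ((dlz t).const_mul (k : ℝ))).neg
      refine h1.congr_deriv ?_
      have e1 : hf t = UU k p x k 1 t / UU k p x k 0 t := congrFun hfe t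
      have e2 : hf t * yf t = hf t - k * (1 - mf t) := by
        simp only [hyf]; field_simp
      rw [e2, e1]
      ring
    · have h1 := hTLI ι p x k hk h hmu
      have h2 : Tendsto (fun t => Real.log (PR (pt p x t) x k k)) atTop (𝓝 (Real.log 1)) :=
        (Real.continuousAt_log one_ne_zero).tendsto.comp h1
      have h3 := h2.neg
      simpa using h3
    · intro t _
      have hne := ne_of_gt (hfpos t)
      refine (dy t).congr_deriv ?_
      field_simp
      try ring
    · intro t _
      have hne := ne_of_gt (hfpos t)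
      refine (dl t).congr_deriv ?_
      simp only [hof]
      field_simp
      ring
    · intro t _
      have hne := ne_of_gt (hfpos t)
      have h1 := ((dv t).const_mul (k : ℝ)).div ((dh t).mul (dh t)) (mul_ne_zero hne hne)
      have e : (fun t => (k : ℝ) * vf t / hf t ^ 2) = fun t => (k : ℝ) * vf t / (hf t * hf t) := by
        funext t; ring
      rw [e]
      refine h1.congr_deriv ?_
      simp only [Pi.mul_apply]
      field_simp
      ring
    · intro t _
      have hne := ne_of_gt (hfpos t)
      have h1 := (hasDerivAt_const t l).div (dh t) hne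
      refine h1.congr_deriv ?_
      field_simp
      ring
    · intro t _
      exact intervalIntegral.integral_hasDerivAt_right (cint.intervalIntegrable _ _)
        (cint.stronglyMeasurableAtFilter _ _) cint.continuousAt
    · simp
    · -- o ≥ 0
      intro t _
      have h1 := o_static hEEL (hLaw t) k hk
      have hP1 := (pk t).2.1
      have hP0 := (pk t).1
      have e1 : lf t * hf t = GP (pt p x t) x k k / PR (pt p x t) x (k - 1) k := by
        simp only [hlf, hhf]
        unfold lam hh
        field_simp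
      have h2 : 0 ≤ lf t * hf t - rf t + mf t := by
        rw [e1]
        simp only [hrf, hmf]
        rw [← sub_div, ← sub_le_iff_le_add, zero_sub, le_div_iff₀ hP1]
        linarith
      exact div_nonneg h2 (hfpos t).le
    · intro t _
      have := V_static hEEL (hLaw t) k (pk t).1
      have hV : 0 ≤ Vf t := this
      have := hfpos t
      positivity
    · intro t _; exact lfpos t
    · intro t _
      have h1 := hTLQ ι p x k hk h hPlt t
      show lam k (pt p x t) x < 1
      unfold lam
      rwa [div_lt_one (pk t).2.1]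
    · intro t ht
      have h1 := hmlt t ht
      have h2 := hfpos t
      simp only [hyf]
      have : 0 ≤ k * (1 - mf t) / hf t := div_nonneg (mul_nonneg hkR.le (by linarith)) h2.le
      linarith
    · intro t ht
      have h1 := hGEN ι (pt p x t) x k hk (hLaw t) (hmlt t ht)
      have hne := ne_of_gt (hfpos t)
      have h2 := hfpos t
      have h3 : lf t * (Vf t + hf t * (hf t - k * (1 - mf t))) ≤ k * vf t := by
        have e : et k (pt p x t) x = hf t - k * (1 - mf t) := rfl
        rw [e] at h1
        exact h1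
      have e : lf t * (Vf t / hf t ^ 2 + yf t) =
          lf t * (Vf t + hf t * (hf t - k * (1 - mf t))) / hf t ^ 2 := by
        simp only [hyf]
        field_simp
      rw [e]
      exact div_le_div_of_nonneg_right h3 (by positivity)
    · intro t ht
      have h1 := r_static hCND hEEL (hLaw t) k hk
      have hP1 := (pk t).2.1
      have h2 : (k : ℝ) - (k - 1) * mf t ≤ rf t := by
        simp only [hrf]
        rw [le_div_iff₀ hP1]
        exact h1
      have hne := ne_of_gt (hfpos t)
      have h3 := hfpos t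
      have e : yf t - (1 - lf t + of t) = (rf t - (k - (k - 1) * mf t)) / hf t := by
        simp only [hyf, hof]
        field_simp
        ring
      have : 0 ≤ yf t - (1 - lf t + of t) := by
        rw [e]
        exact div_nonneg (by linarith) h3.le
      linarith
    · -- Rup
      intro t ht
      obtain ⟨v0, _, c2⟩ := hvnn t ht
      have hne := ne_of_gt (hfpos t)
      have h3 := hfpos t
      have hml' : mf t < l := lt_of_le_of_lt (hmle t ht) hmul
      have hmf0 : 0 ≤ mf t := by
        simp only [hmf]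
        exact sum_nonneg fun i _ => mul_nonneg ((hLaw t).pos i).le ((hLaw t).nn i)
      have hq : 1 - (1 - lam k p x) = (l - mu p x) / l := by
        rw [hq0]; field_simp
      have key : cf t ≤ vf t * ((l - mu p x) + (1 - mf t) - vf t / l) := by
        have a1 : cf t ≤ (l - mf t) * vf t - vf t ^ 2 / (l - mf t) := by
          have hpos : 0 < l - mf t := by linarith
          have : cf t ≤ ((l - mf t) ^ 2 * vf t - vf t ^ 2) / (l - mf t) := by
            rw [le_div_iff₀ hpos]; linarith
          refine this.trans (le_of_eq ?_)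
          field_simp
        have a2 : vf t ^ 2 / l ≤ vf t ^ 2 / (l - mf t) :=
          div_le_div_of_nonneg_left (sq_nonneg _) (by linarith) (by linarith)
        have a3 : vf t * ((l - mu p x) + (1 - mf t) - vf t / l) =
            vf t * (l - mf t) + vf t * (1 - mu p x) - vf t ^ 2 / l := by ring
        rw [a3]
        nlinarith
      have e1 : k * vf t / hf t ^ 2 * ((1 - (1 - lam k p x)) * (l / hf t) + 1 / k *
          (1 - yf t - k * vf t / hf t ^ 2 / (l / hf t))) =
          k * (vf t * ((l - mu p x) + (1 - mf t) - vf t / l)) / hf t ^ 3 := by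
        rw [hq]
        simp only [hyf]
        field_simp
        ring
      show k * cf t / hf t ^ 3 ≤ k * vf t / hf t ^ 2 * ((1 - (1 - lam k p x)) * (l / hf t) + 1 / k *
          (1 - yf t - k * vf t / hf t ^ 2 / (l / hf t)))
      rw [e1]
      exact div_le_div_of_nonneg_right (mul_le_mul_of_nonneg_left key hkR.le) (by positivity)
    · -- Rlo
      intro t ht
      obtain ⟨v0, c1, _⟩ := hvnn t ht
      have hne := ne_of_gt (hfpos t)
      have h3 := hfpos t
      have hm1 := hmle t ht
      have e1 : k * vf t / hf t ^ 2 * ((1 - lam k p x) * (l / hf t)) =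
          k * (mu p x * vf t) / hf t ^ 3 := by
        rw [hq0]
        field_simp
      show - (k * cf t / hf t ^ 3) ≤ k * vf t / hf t ^ 2 * ((1 - lam k p x) * (l / hf t))
      rw [e1, ← neg_div]
      refine div_le_div_of_nonneg_right ?_ (by positivity)
      have : - cf t ≤ mu p x * vf t := by nlinarith
      nlinarith
    · show lf 0 = 1 - (1 - lam k p x)
      rw [lf0]; ring
    · show l / hf 0 = 1 + (l / hh k p x - 1)
      rw [hf0]; ring
    · show k * vf 0 / hf 0 ^ 2 = yf 0 * ((1 - (1 - lam k p x)) * (1 + (l / hh k p x - 1)))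
      have hne := ne_of_gt hh0
      have e0 : yf 0 = et k p x / hh k p x := by
        simp only [hyf, hf0, mf0]
        unfold et
        field_simp
      rw [e0, vf0, hf0, hidt]
      field_simp
      ring
  · show - Real.log (PR (pt p x 0) x k k) = _
    rw [hpt0']
  · show 1 - k * (1 - mf 0) / hf 0 = _
    rw [mf0, hf0]

end Pool.Agent.Q119.EM.Flw
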