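import Pool.Agent.Q54.EM.StmD

set_option autoImplicit false

namespace Pool.Agent.Q119.EM.Rmo

open Pool.Agent.Q54.EM

theorem rmo : S_FF → S_RMO := by
  intro hFF k q0 e l h y g K lm o R3 H F T O hf t ht
  have hh := hf.hpos t ht
  have l0 := hf.lm0 t ht
  have l1 := hf.lm1 t ht
  have o0 := hf.o0 t ht
  have g0 := hf.g0 t ht
  have y1 := hf.y1 t ht
  have Kg := hf.Kg t ht
  have qy := hf.qy t ht
  have hq0 : 0 < 1 - lm t := by linarith
  have hq1 : 1 - lm t < 1 := by linarith
  obtain ⟨d1, f1, f2⟩ := hFF (1 - lm t) hq0 hq1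
  have dq : HasDerivAt (fun s => 1 - lm s) (-(h t * (lm t * (1 - lm t + o t)))) t := by
    simpa using (hf.dlm t ht).const_sub 1
  have dff : HasDerivAt (fun s => ff (1 - lm s))
      (((1 / (1 - (1 - lm t)) - ff (1 - lm t)) / (1 - lm t)) *
        (-(h t * (lm t * (1 - lm t + o t))))) t := by
    have := HasDerivAt.comp t (h₂ := ff) (h := fun s => 1 - lm s) d1 dq
    simpa [Function.comp_def] using this
  have dR := (hf.dF t ht).sub ((hf.dy t ht).mul dff)
  set f := ff (1 - lm t) with hfdef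
  have hd : (-(h t * y t) - (h t * (-K t + (1 - y t) * g t) * f +
      y t * (((1 / (1 - (1 - lm t)) - f) / (1 - lm t)) * (-(h t * (lm t * (1 - lm t + o t))))))) =
      h t * (f * (K t - lm t * y t - (1 - y t) * g t) + y t * o t * ((1 - lm t * f) / (1 - lm t))) := by
    have e1 : (1 - (1 - lm t)) = lm t := by ring
    rw [e1]
    have e2 : (1 - lm t) ≠ 0 := ne_of_gt hq0
    have e3 : lm t ≠ 0 := ne_of_gt l0
    field_simp
    ring
  have hE : 0 ≤ K t - lm t * y t - lm t * g t := by nlinarith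
  have hE0 : 0 ≤ K t - lm t * y t := by nlinarith [mul_nonneg l0.le g0]
  have hyq : 0 ≤ y t - (1 - lm t) := by linarith
  have hy0 : 0 ≤ y t := by linarith
  have h2 : 1 / 2 ≤ (1 - lm t * f) / (1 - lm t) := by
    rw [le_div_iff₀ hq0]
    have e1 : (1 - (1 - lm t)) = lm t := by ring
    rw [e1] at f2
    linarith
  have h3 : (y t - (1 - lm t)) * (K t - lm t * y t) ≤ f * (K t - lm t * y t - (1 - y t) * g t) := by
    have a1 : (y t - (1 - lm t)) * (K t - lm t * y t) ≤ lm t * (K t - lm t * y t - (1 - y t) * g t) := by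
      nlinarith [mul_nonneg (sub_nonneg.2 y1) hE]
    have a2 : 0 ≤ lm t * (K t - lm t * y t - (1 - y t) * g t) := le_trans (mul_nonneg hyq hE0) a1
    have a3 : 0 ≤ K t - lm t * y t - (1 - y t) * g t := nonneg_of_mul_nonneg_right a2 l0
    nlinarith
  have h4 : y t * o t / 2 ≤ y t * o t * ((1 - lm t * f) / (1 - lm t)) := by
    have := mul_le_mul_of_nonneg_left h2 (mul_nonneg hy0 o0)
    linarith
  refine ⟨_, dR, ?_, ?_⟩
  · show _ ≤ (-(h t * y t) - (h t * (-K t + (1 - y t) * g t) * f +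
      y t * (((1 / (1 - (1 - lm t)) - f) / (1 - lm t)) * (-(h t * (lm t * (1 - lm t + o t)))))))
    rw [hd]
    exact mul_le_mul_of_nonneg_left (add_le_add h3 h4) hh.le
  · show 0 ≤ (-(h t * y t) - (h t * (-K t + (1 - y t) * g t) * f +
      y t * (((1 / (1 - (1 - lm t)) - f) / (1 - lm t)) * (-(h t * (lm t * (1 - lm t + o t)))))))
    rw [hd]
    refine mul_nonneg hh.le (add_nonneg ?_ ?_)
    · exact le_trans (mul_nonneg hyq hE0) h3
    · exact le_trans (by positivity) h4

end Pool.Agent.Q119.EM.Rmo
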