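import Pool.Agent.Q54.EM.StmD

set_option autoImplicit false

namespace Pool.Agent.Q119.EM.Tmo

open Pool.Agent.Q54.EM Finset

/-- moments of the unnormalised tilt -/
noncomputable def M {ι : Type} [Fintype ι] (p x : ι → ℝ) (j : ℕ) (s : ℝ) : ℝ :=
  ∑ i, p i * x i ^ j * Real.exp (-s * x i)

theorem M_deriv {ι : Type} [Fintype ι] (p x : ι → ℝ) (j : ℕ) (s : ℝ) :
    HasDerivAt (M p x j) (-M p x (j + 1) s) s := by
  have : HasDerivAt (fun s => ∑ i, p i * x i ^ j * Real.exp (-s * x i))
      (∑ i, p i * x i ^ j * (Real.exp (-s * x i) * (-1 * x i))) s := by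
    refine HasDerivAt.fun_sum fun i _ => ?_
    have h1 : HasDerivAt (fun s : ℝ => -s * x i) (-1 * x i) s := (hasDerivAt_neg s).mul_const (x i)
    exact (h1.exp).const_mul _
  refine this.congr_deriv ?_
  unfold M
  rw [← sum_neg_distrib]
  refine sum_congr rfl fun i _ => ?_
  ring

theorem M0_pos {ι : Type} [Fintype ι] {p x : ι → ℝ} (h : Law p x) (s : ℝ) : 0 < M p x 0 s := by
  unfold M
  have : Nonempty ι := by
    by_contra hne
    rw [not_nonempty_iff] at hne
    have := h.sum
    simp at this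
  refine sum_pos (fun i _ => ?_) univ_nonempty
  have := h.pos i
  positivity

theorem Z_eq {ι : Type} [Fintype ι] (p x : ι → ℝ) (s : ℝ) :
    (∑ j, p j * Real.exp (-s * x j)) = M p x 0 s := by
  unfold M
  simp

theorem pt_sum {ι : Type} [Fintype ι] (p x : ι → ℝ) (s : ℝ) (j : ℕ) :
    ∑ i, pt p x s i * x i ^ j = M p x j s / M p x 0 s := by
  unfold pt
  rw [Z_eq]
  conv_rhs => rw [M]
  rw [sum_div]
  refine sum_congr rfl fun i _ => ?_
  ring

theorem mu_eq {ι : Type} [Fintype ι] (p x : ι → ℝ) (s : ℝ) :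
    mu (pt p x s) x = M p x 1 s / M p x 0 s := by
  rw [← pt_sum]
  unfold mu
  simp

theorem va_eq {ι : Type} [Fintype ι] (p x : ι → ℝ) (s : ℝ) :
    va (pt p x s) x = M p x 2 s / M p x 0 s - (M p x 1 s / M p x 0 s) ^ 2 := by
  rw [← pt_sum, ← pt_sum]
  unfold va
  simp

theorem k3_eq {ι : Type} [Fintype ι] {p x : ι → ℝ} (h : Law p x) (s : ℝ) :
    k3 (pt p x s) x = M p x 3 s / M p x 0 s - 3 * (M p x 1 s / M p x 0 s) * (M p x 2 s / M p x 0 s)
      + 2 * (M p x 1 s / M p x 0 s) ^ 3 := by
  have h0 : ∑ i, pt p x s i = 1 := by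
    have := pt_sum p x s 0
    rw [div_self (ne_of_gt (M0_pos h s))] at this
    simpa using this
  unfold k3
  set m := mu (pt p x s) x with hm
  have hm' : m = M p x 1 s / M p x 0 s := mu_eq p x s
  have e : ∑ i, pt p x s i * (x i - m) ^ 3 =
      ∑ i, pt p x s i * x i ^ 3 - 3 * m * (∑ i, pt p x s i * x i ^ 2)
        + 3 * m ^ 2 * (∑ i, pt p x s i * x i ^ 1) - m ^ 3 * ∑ i, pt p x s i := by
    rw [mul_sum, mul_sum, mul_sum, ← sum_sub_distrib, ← sum_add_distrib, ← sum_sub_distrib]
    refine sum_congr rfl fun i _ => ?_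
    ring
  rw [e, pt_sum, pt_sum, pt_sum, h0, ← hm']
  ring

theorem va_nonneg {ι : Type} [Fintype ι] {p x : ι → ℝ} (h : Law p x) (s : ℝ) :
    0 ≤ va (pt p x s) x := by
  have h0 : ∑ i, pt p x s i = 1 := by
    have := pt_sum p x s 0
    rw [div_self (ne_of_gt (M0_pos h s))] at this
    simpa using this
  have hp : ∀ i, 0 ≤ pt p x s i := by
    intro i
    unfold pt
    rw [Z_eq]
    have := M0_pos h s
    have := h.pos i
    positivity
  have e : va (pt p x s) x = ∑ i, pt p x s i * (x i - mu (pt p x s) x) ^ 2 := by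
    have : ∑ i, pt p x s i * (x i - mu (pt p x s) x) ^ 2 =
        ∑ i, pt p x s i * x i ^ 2 - 2 * mu (pt p x s) x * (∑ i, pt p x s i * x i)
          + mu (pt p x s) x ^ 2 * ∑ i, pt p x s i := by
      rw [mul_sum, mul_sum, ← sum_sub_distrib, ← sum_add_distrib]
      refine sum_congr rfl fun i _ => ?_
      ring
    rw [this, h0]
    unfold va mu
    ring
  rw [e]
  exact sum_nonneg fun i _ => mul_nonneg (hp i) (sq_nonneg _)

theorem tmo : S_TMO := by
  intro ι _ p x h
  have hd1 : ∀ t, HasDerivAt (fun s => mu (pt p x s) x) (- va (pt p x t) x) t := by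
    intro t
    have hz := ne_of_gt (M0_pos h t)
    have e : (fun s => mu (pt p x s) x) = fun s => M p x 1 s / M p x 0 s := by
      funext s; exact mu_eq p x s
    rw [e]
    refine ((M_deriv p x 1 t).div (M_deriv p x 0 t) hz).congr_deriv ?_
    rw [va_eq]
    field_simp
    ring
  refine ⟨hd1, ?_, ?_, ?_, ?_⟩
  · intro t
    have hz := ne_of_gt (M0_pos h t)
    have e : (fun s => va (pt p x s) x) =
        fun s => M p x 2 s / M p x 0 s - (M p x 1 s / M p x 0 s) ^ 2 := by
      funext s; exact va_eq p x s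
    rw [e]
    have h2 := (M_deriv p x 1 t).div (M_deriv p x 0 t) hz
    have h3 := h2.mul h2
    have e2 : (fun s => M p x 2 s / M p x 0 s - (M p x 1 s / M p x 0 s) ^ 2) =
        fun s => M p x 2 s / M p x 0 s - (M p x 1 s / M p x 0 s) * (M p x 1 s / M p x 0 s) := by
      funext s; ring
    rw [e2]
    refine (((M_deriv p x 2 t).div (M_deriv p x 0 t) hz).sub h3).congr_deriv ?_
    rw [k3_eq h]
    simp only [Pi.div_apply]
    field_simp
    ring
  · intro t
    have hz := ne_of_gt (M0_pos h t)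
    have e : (fun s => Real.log (∑ j, p j * Real.exp (-s * x j))) =
        fun s => Real.log (M p x 0 s) := by
      funext s; rw [Z_eq]
    rw [e]
    refine ((M_deriv p x 0 t).log hz).congr_deriv ?_
    rw [mu_eq]
    ring
  · intro t ht
    have hant : Antitone (fun s => mu (pt p x s) x) := by
      refine antitone_of_deriv_nonpos (fun s => (hd1 s).differentiableAt) fun s => ?_
      rw [(hd1 s).deriv]
      have := va_nonneg h s
      linarith
    have h0 : pt p x 0 = p := by
      funext i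
      unfold pt
      simp [h.sum]
    have := hant ht
    simp only [h0] at this
    exact this
  · funext i
    unfold pt
    simp [h.sum]

end Pool.Agent.Q119.EM.Tmo
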