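import Pool.Agent.Q54.EM.StmC

set_option autoImplicit false

namespace Pool.Agent.Q119.EM.Vp3

open Pool.Agent.Q54.EM Finset

/-- triple sum -/
noncomputable def S3 {ι : Type} [Fintype ι] (p x : ι → ℝ) (F : ℝ → ℝ → ℝ → ℝ) : ℝ :=
  ∑ a, ∑ b, ∑ c, p a * p b * p c * F (x a) (x b) (x c)

theorem S3_add {ι : Type} [Fintype ι] (p x : ι → ℝ) (F G : ℝ → ℝ → ℝ → ℝ) :
    S3 p x (fun a b c => F a b c + G a b c) = S3 p x F + S3 p x G := by
  unfold S3
  rw [← sum_add_distrib]
  refine sum_congr rfl fun a _ => ?_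
  rw [← sum_add_distrib]
  refine sum_congr rfl fun b _ => ?_
  rw [← sum_add_distrib]
  refine sum_congr rfl fun c _ => ?_
  ring

theorem S3_sub {ι : Type} [Fintype ι] (p x : ι → ℝ) (F G : ℝ → ℝ → ℝ → ℝ) :
    S3 p x (fun a b c => F a b c - G a b c) = S3 p x F - S3 p x G := by
  unfold S3
  rw [← sum_sub_distrib]
  refine sum_congr rfl fun a _ => ?_
  rw [← sum_sub_distrib]
  refine sum_congr rfl fun b _ => ?_
  rw [← sum_sub_distrib]
  refine sum_congr rfl fun c _ => ?_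
  ring

theorem S3_swap12 {ι : Type} [Fintype ι] (p x : ι → ℝ) (F : ℝ → ℝ → ℝ → ℝ) :
    S3 p x (fun a b c => F b a c) = S3 p x F := by
  unfold S3
  rw [sum_comm]
  refine sum_congr rfl fun a _ => sum_congr rfl fun b _ => sum_congr rfl fun c _ => ?_
  ring

theorem S3_swap23 {ι : Type} [Fintype ι] (p x : ι → ℝ) (F : ℝ → ℝ → ℝ → ℝ) :
    S3 p x (fun a b c => F a c b) = S3 p x F := by
  unfold S3
  refine sum_congr rfl fun a _ => ?_
  rw [sum_comm]
  refine sum_congr rfl fun b _ => sum_congr rfl fun c _ => ?_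
  ring

/-- the symmetrisation -/
noncomputable def sym (F : ℝ → ℝ → ℝ → ℝ) (a b c : ℝ) : ℝ :=
  F a b c + F b a c + F a c b + F b c a + F c a b + F c b a

theorem S3_sym {ι : Type} [Fintype ι] (p x : ι → ℝ) (F : ℝ → ℝ → ℝ → ℝ) :
    S3 p x (sym F) = 6 * S3 p x F := by
  have h1 := S3_swap12 p x F
  have h2 := S3_swap23 p x F
  have h3 : S3 p x (fun a b c => F b c a) = S3 p x F := by
    rw [← h2]
    exact S3_swap12 p x (fun a b c => F a c b)
  have h4 : S3 p x (fun a b c => F c a b) = S3 p x F := by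
    rw [← h1]
    exact S3_swap23 p x (fun a b c => F b a c)
  have h5 : S3 p x (fun a b c => F c b a) = S3 p x F := by
    rw [← h4]
    exact S3_swap12 p x (fun a b c => F c a b)
  have e : S3 p x (sym F) = S3 p x F + S3 p x (fun a b c => F b a c) +
      S3 p x (fun a b c => F a c b) + S3 p x (fun a b c => F b c a) +
      S3 p x (fun a b c => F c a b) + S3 p x (fun a b c => F c b a) := by
    rw [← S3_add, ← S3_add, ← S3_add, ← S3_add, ← S3_add]
    rfl
  rw [e, h1, h2, h3, h4, h5]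
  ring

theorem sym_swap12 (F : ℝ → ℝ → ℝ → ℝ) (a b c : ℝ) : sym F a b c = sym F b a c := by
  unfold sym; ring

theorem sym_swap23 (F : ℝ → ℝ → ℝ → ℝ) (a b c : ℝ) : sym F a b c = sym F a c b := by
  unfold sym; ring

theorem sym_nonneg {F : ℝ → ℝ → ℝ → ℝ} {l : ℝ}
    (h : ∀ a b c, 0 ≤ a → a ≤ b → b ≤ c → c ≤ l → 0 ≤ sym F a b c) :
    ∀ a b c, 0 ≤ a → 0 ≤ b → 0 ≤ c → a ≤ l → b ≤ l → c ≤ l → 0 ≤ sym F a b c := by
  intro a b c ha hb hc la lb lc
  rcases le_total a b with h1 | h1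
  · rcases le_total b c with h2 | h2
    · exact h a b c ha h1 h2 lc
    · rcases le_total a c with h3 | h3
      · rw [sym_swap23]; exact h a c b ha h3 h2 lb
      · rw [sym_swap23, sym_swap12]; exact h c a b hc h3 h1 lb
  · rcases le_total a c with h2 | h2
    · rw [sym_swap12]; exact h b a c hb h1 h2 lc
    · rcases le_total b c with h3 | h3
      · rw [sym_swap12, sym_swap23]; exact h b c a hb h3 h2 la
      · rw [sym_swap12, sym_swap23, sym_swap12]; exact h c b a hc h3 h1 la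

/-- the integrand -/
noncomputable def Ph (l : ℝ) (a b c : ℝ) : ℝ :=
  1 / 2 * ((a - b) * ((max (c - b) 0) ^ 2 - (max (c - a) 0) ^ 2) * (1 - max a b / l)) -
    (1 / 2 * (a - b) ^ 2 * (c * (1 - c / l)) - a * (max (b - a) 0) ^ 2 * (1 - c / l))

theorem Ph_sym {l : ℝ} (hl : 0 < l) (a b c : ℝ) (_ha : 0 ≤ a) (hab : a ≤ b) (hbc : b ≤ c)
    (_hc : c ≤ l) : 0 ≤ sym (Ph l) a b c := by
  have hac := hab.trans hbc
  have e : sym (Ph l) a b c = (b - a) ^ 2 * (c - b) ^ 2 / l := by
    unfold sym Ph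
    rw [max_eq_right hab, max_eq_left hab, max_eq_right hbc, max_eq_left hbc, max_eq_right hac,
      max_eq_left hac, max_eq_left (sub_nonneg.2 hab), max_eq_left (sub_nonneg.2 hbc),
      max_eq_left (sub_nonneg.2 hac), max_eq_right (sub_nonpos.2 hab),
      max_eq_right (sub_nonpos.2 hbc), max_eq_right (sub_nonpos.2 hac)]
    field_simp
    ring
  rw [e]
  positivity

theorem main_ineq {ι : Type} [Fintype ι] {p x : ι → ℝ} {l : ℝ} (hl : 0 < l) (h : Law p x)
    (hx : ∀ i, x i ≤ l) : 0 ≤ S3 p x (Ph l) := by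
  have h6 := S3_sym p x (Ph l)
  have : 0 ≤ S3 p x (sym (Ph l)) := by
    unfold S3
    refine sum_nonneg fun a _ => sum_nonneg fun b _ => sum_nonneg fun c _ => ?_
    refine mul_nonneg (mul_nonneg (mul_nonneg (h.pos a).le (h.pos b).le) (h.pos c).le) ?_
    exact sym_nonneg (Ph_sym hl) _ _ _ (h.nn a) (h.nn b) (h.nn c) (hx a) (hx b) (hx c)
  linarith

theorem va_T {ι : Type} [Fintype ι] {p x : ι → ℝ} (h : Law p x) (g : ℝ → ℝ) :
    va p x * (∑ i, p i * g (x i)) = S3 p x (fun a b c => 1 / 2 * (a - b) ^ 2 * g c) := by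
  have e : S3 p x (fun a b c => 1 / 2 * (a - b) ^ 2 * g c) =
      (∑ a, ∑ b, p a * p b * (1 / 2 * (x a - x b) ^ 2)) * (∑ i, p i * g (x i)) := by
    unfold S3
    rw [sum_mul]
    refine sum_congr rfl fun a _ => ?_
    rw [sum_mul]
    refine sum_congr rfl fun b _ => ?_
    rw [mul_sum]
    refine sum_congr rfl fun c _ => ?_
    ring
  rw [e]
  congr 1
  have e2 : (∑ a, ∑ b, p a * p b * (1 / 2 * (x a - x b) ^ 2)) =
      1 / 2 * ((∑ a, p a * x a ^ 2) * (∑ b, p b)) - (∑ a, p a * x a) * (∑ b, p b * x b)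
        + 1 / 2 * ((∑ a, p a) * (∑ b, p b * x b ^ 2)) := by
    rw [sum_mul_sum, sum_mul_sum, sum_mul_sum, mul_sum, mul_sum, ← sum_sub_distrib,
      ← sum_add_distrib]
    refine sum_congr rfl fun a _ => ?_
    rw [mul_sum, mul_sum, ← sum_sub_distrib, ← sum_add_distrib]
    refine sum_congr rfl fun b _ => ?_
    ring
  rw [e2, h.sum]
  unfold va
  ring

theorem vw_lam {ι : Type} [Fintype ι] (p x : ι → ℝ) (g : ℝ → ℝ) :
    (∑ i, p i * g (x i)) * vw p x = S3 p x (fun a b c => a * (max (b - a) 0) ^ 2 * g c) := by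
  unfold vw S3
  rw [mul_comm, sum_mul]
  refine sum_congr rfl fun a _ => ?_
  rw [sum_mul]
  refine sum_congr rfl fun b _ => ?_
  rw [mul_sum]
  refine sum_congr rfl fun c _ => ?_
  ring

theorem vp3 : S_LMB → S_POS → S_EEL → S_VP3 := by
  intro hLMB hPOS _ ι _ p x k l hk h hm hKK
  obtain ⟨hlam, hx⟩ := hLMB ι p x k l hk h hm hKK
  obtain ⟨hl, hkk⟩ := hKK
  have hw1 : 0 < PR p x (k - 1) k := (hPOS ι p x h).1 (k - 1) k (Nat.sub_le _ _) hk hm
  have hlam2 : lam k p x = ∑ i, p i * (1 - x i / l) := by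
    rw [hlam]
    have : ∑ i, p i * (1 - x i / l) = ∑ i, p i - (∑ i, p i * x i) / l := by
      rw [sum_div, ← sum_sub_distrib]
      refine sum_congr rfl fun i _ => ?_
      ring
    rw [this, h.sum]
    rfl
  have hCC : CC k p x (fun i => psi p x (x i)) =
      k * PR p x (k - 1) k * S3 p x (fun a b c =>
        1 / 2 * ((a - b) * ((max (c - b) 0) ^ 2 - (max (c - a) 0) ^ 2) * (1 - max a b / l))) := by
    unfold CC S3
    rw [mul_sum, mul_sum]
    refine sum_congr rfl fun a _ => ?_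
    rw [mul_sum, mul_sum]
    refine sum_congr rfl fun b _ => ?_
    have e1 : PR p x (k - 1) (k - max (x a) (x b)) =
        PR p x (k - 1) k * (1 - max (x a) (x b) / l) := by
      rcases le_total (x a) (x b) with hab | hab
      · rw [max_eq_right hab]; exact hkk b
      · rw [max_eq_left hab]; exact hkk a
    rw [e1]
    have e2 : psi p x (x b) - psi p x (x a) =
        ∑ c, p c * ((max (x c - x b) 0) ^ 2 - (max (x c - x a) 0) ^ 2) := by
      unfold psi
      rw [← sum_sub_distrib]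
      refine sum_congr rfl fun c _ => ?_
      ring
    show (k : ℝ) / 2 * (p a * p b * ((x a - x b) * (psi p x (x b) - psi p x (x a))) *
      (PR p x (k - 1) k * (1 - max (x a) (x b) / l))) = _
    rw [e2]
    have e3 : (k : ℝ) / 2 * (p a * p b * ((x a - x b) *
        ∑ c, p c * ((max (x c - x b) 0) ^ 2 - (max (x c - x a) 0) ^ 2)) *
        (PR p x (k - 1) k * (1 - max (x a) (x b) / l))) =
        (∑ c, p c * ((max (x c - x b) 0) ^ 2 - (max (x c - x a) 0) ^ 2)) *
          ((k : ℝ) / 2 * (p a * p b * (x a - x b)) *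
        (PR p x (k - 1) k * (1 - max (x a) (x b) / l))) := by ring
    rw [e3, sum_mul, mul_sum]
    refine sum_congr rfl fun c _ => ?_
    ring
  have h1 := va_T h (fun c => c * (1 - c / l))
  have h2 := vw_lam p x (fun c => 1 - c / l)
  have hmain := main_ineq hl h hx
  have e : S3 p x (Ph l) = S3 p x (fun a b c =>
        1 / 2 * ((a - b) * ((max (c - b) 0) ^ 2 - (max (c - a) 0) ^ 2) * (1 - max a b / l))) -
      (S3 p x (fun a b c => 1 / 2 * (a - b) ^ 2 * (c * (1 - c / l))) -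
        S3 p x (fun a b c => a * (max (b - a) 0) ^ 2 * (1 - c / l))) := by
    rw [← S3_sub, ← S3_sub]
    rfl
  rw [hCC, hlam2, h1, h2]
  refine mul_le_mul_of_nonneg_left ?_ (by positivity)
  rw [e] at hmain
  linarith

end Pool.Agent.Q119.EM.Vp3
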